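import Mathlib
import Pool.Agent.N728.QL.Def

/-!
# SM: additive and multiplicative smoothing of a step function
-/

set_option autoImplicit false

namespace Pool.Agent.N838.QL

open Finset MeasureTheory Set
open Pool.Agent.N728.QL

noncomputable section

lemma int_abs_le {F : ℝ → ℝ} {C a b : ℝ} (h : ∀ x ∈ Set.uIoc a b, |F x| ≤ C) :
    |∫ x in a..b, F x| ≤ C * |b - a| := by
  have h2 := intervalIntegral.norm_integral_le_of_norm_le_const (f := F) (a := a) (b := b)
    (C := C) (fun x hx => by rw [Real.norm_eq_abs]; exact h x hx)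
  rwa [Real.norm_eq_abs] at h2

/-- the mean over `[v, v + a]` -/
def M (F : ℝ → ℝ) (a v : ℝ) : ℝ := a⁻¹ * ∫ x in v..(v + a), F x

lemma M_le {F : ℝ → ℝ} {a : ℝ} (ha : 0 < a) (hF : ∀ x, |F x| ≤ 1) (v : ℝ) : |M F a v| ≤ 1 := by
  unfold M
  have h1 : |∫ x in v..(v + a), F x| ≤ 1 * |v + a - v| :=
    int_abs_le fun x _ => hF x
  rw [add_sub_cancel_left, one_mul, abs_of_pos ha] at h1
  rw [abs_mul, abs_of_pos (inv_pos.2 ha)]
  calc a⁻¹ * |∫ x in v..(v + a), F x| ≤ a⁻¹ * a := mul_le_mul_of_nonneg_left h1 (inv_pos.2 ha).le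
    _ = 1 := inv_mul_cancel₀ ha.ne'

lemma M_lip {F : ℝ → ℝ} {a : ℝ} (ha : 0 < a) (hI : ∀ x y, IntervalIntegrable F volume x y)
    (hF : ∀ x, |F x| ≤ 1) (v v' : ℝ) : |M F a v - M F a v'| ≤ 2 / a * |v - v'| := by
  unfold M
  have e1 : (∫ x in v..(v + a), F x) - ∫ x in v'..(v' + a), F x =
      (∫ x in (v' + a)..(v + a), F x) - ∫ x in v'..v, F x := by
    have h1 := intervalIntegral.integral_add_adjacent_intervals (hI v' v) (hI v (v + a))
    have h2 := intervalIntegral.integral_add_adjacent_intervals (hI v' (v' + a))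
      (hI (v' + a) (v + a))
    linarith
  have h3 : |∫ x in (v' + a)..(v + a), F x| ≤ 1 * |v + a - (v' + a)| :=
    int_abs_le fun x _ => hF x
  have h4 : |∫ x in v'..v, F x| ≤ 1 * |v - v'| :=
    int_abs_le fun x _ => hF x
  have e2 : v + a - (v' + a) = v - v' := by ring
  rw [e2] at h3
  rw [← mul_sub, e1, abs_mul, abs_of_pos (inv_pos.2 ha)]
  have h5 := abs_sub (∫ x in (v' + a)..(v + a), F x) (∫ x in v'..v, F x)
  calc a⁻¹ * |(∫ x in (v' + a)..(v + a), F x) - ∫ x in v'..v, F x| ≤ a⁻¹ * (2 * |v - v'|) :=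
        mul_le_mul_of_nonneg_left (by linarith) (inv_pos.2 ha).le
    _ = _ := by ring

lemma M_zero {F : ℝ → ℝ} {a v : ℝ} (ha : 0 < a) (hF : ∀ x, v ≤ x → x ≤ v + a → F x = 0) :
    M F a v = 0 := by
  unfold M
  have h1 : ∫ x in v..(v + a), F x = ∫ _x in v..(v + a), (0 : ℝ) := by
    refine intervalIntegral.integral_congr fun x hx => ?_
    rw [Set.uIcc_of_le (by linarith)] at hx
    exact hF x hx.1 hx.2
  rw [h1, intervalIntegral.integral_zero, mul_zero]

lemma cont_of_lip {F : ℝ → ℝ} {C : ℝ} (h : ∀ x y, |F x - F y| ≤ C * |x - y|) : Continuous F := by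
  have hC : 0 ≤ C := by
    have := (abs_nonneg _).trans (h 1 0)
    simpa using this
  exact (LipschitzWith.of_dist_le_mul (K := ⟨C, hC⟩) fun x y => by
    rw [Real.dist_eq, Real.dist_eq]; exact h x y).continuous

/-- the properties of the first mean -/
lemma first {B H δ σ : ℝ} {G0 : ℝ → ℝ} (hH : 0 < H) (hHB : 10 * H ≤ B) (hδ : 0 < δ)
    (hδ2 : δ ≤ 1 / 2) (h1 : ∀ v, |G0 v| ≤ 1)
    (h2 : ∀ v v', ⌊(v - σ) / H⌋ = ⌊(v' - σ) / H⌋ → G0 v = G0 v')
    (h3 : ∀ v, ¬ (7 / 10 * B ≤ v ∧ v ≤ 32 / 10 * B) → G0 v = 0) :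
    (∀ v, |M G0 (δ * H) v| ≤ 1) ∧
    (∀ v v', |M G0 (δ * H) v - M G0 (δ * H) v'| ≤ 2 / (δ * H) * |v - v'|) ∧
    (∀ v, ¬ (65 / 100 * B ≤ v ∧ v ≤ 32 / 10 * B) → M G0 (δ * H) v = 0) ∧
    (∀ v, (∀ k : ℤ, δ * H ≤ |v - σ - k * H|) → G0 v = M G0 (δ * H) v) := by
  have ha : 0 < δ * H := by positivity
  have hmeas : Measurable G0 := by
    have e : G0 = (fun k : ℤ => G0 (σ + k * H)) ∘ fun v => ⌊(v - σ) / H⌋ := by
      funext v
      refine h2 _ _ ?_
      have : (σ + (⌊(v - σ) / H⌋ : ℝ) * H - σ) / H = (⌊(v - σ) / H⌋ : ℝ) := by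
        field_simp
        ring
      rw [this, Int.floor_intCast]
    rw [e]
    exact (measurable_from_top).comp (Int.measurable_floor.comp
      ((measurable_id.sub_const σ).div_const H))
  have hI : ∀ x y, IntervalIntegrable G0 volume x y := fun x y => by
    refine (intervalIntegrable_const (c := (1 : ℝ))).mono_fun hmeas.aestronglyMeasurable ?_
    refine Filter.Eventually.of_forall fun v => ?_
    beta_reduce
    rw [Real.norm_eq_abs, Real.norm_eq_abs, abs_one]
    exact h1 v
  have ha2 : δ * H ≤ 1 / 20 * B := by nlinarith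
  refine ⟨M_le ha h1, M_lip ha hI h1, fun v hv => M_zero ha fun x hx1 hx2 => h3 x fun hx => ?_,
    fun v hv => ?_⟩
  · rw [not_and_or, not_le, not_le] at hv
    rcases hv with hv | hv
    · linarith [hx.1]
    · linarith [hx.2]
  · unfold M
    have key : ∫ x in v..(v + δ * H), G0 x = ∫ _x in v..(v + δ * H), G0 v := by
      rw [intervalIntegral.integral_of_le (by linarith), intervalIntegral.integral_of_le
        (by linarith), integral_Ioc_eq_integral_Ioo, integral_Ioc_eq_integral_Ioo]
      refine setIntegral_congr_fun measurableSet_Ioo fun x hx => ?_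
      refine h2 _ _ ?_
      set k := ⌊(v - σ) / H⌋ with hk
      have k1 : (k : ℝ) ≤ (v - σ) / H := Int.floor_le _
      have k2 : (v - σ) / H < k + 1 := Int.lt_floor_add_one _
      rw [le_div_iff₀ hH] at k1
      rw [div_lt_iff₀ hH] at k2
      have k3 := hv (k + 1)
      push_cast at k3
      rw [abs_of_neg (by linarith)] at k3
      rw [Int.floor_eq_iff, le_div_iff₀ hH, div_lt_iff₀ hH]
      exact ⟨by linarith [hx.1], by linarith [hx.2]⟩
    rw [key, intervalIntegral.integral_const, add_sub_cancel_left, smul_eq_mul, ← mul_assoc,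
      inv_mul_cancel₀ ha.ne', one_mul]

/-- the second mean, in the logarithmic variable -/
lemma second {ℓ a0 b0 : ℝ} {φ : ℝ → ℝ} (hℓ : 0 < ℓ) (hc : Continuous φ) (h1 : ∀ s, |φ s| ≤ 1)
    (h3 : ∀ s, ¬ (a0 ≤ s ∧ s ≤ b0) → φ s = 0) :
    ∃ ψ : ℝ → ℝ, (∀ s, |ψ s| ≤ 1) ∧ (∀ s s', |ψ s - ψ s'| ≤ 2 * ℓ * |s - s'|) ∧
      (∀ s, ¬ (a0 - 1 / (2 * ℓ) ≤ s ∧ s ≤ b0 + 1 / (2 * ℓ)) → ψ s = 0) ∧
      ∀ s1 s2 : ℝ, |∫ s in s1..s2, (φ s - ψ s)| ≤ 1 / ℓ := by
  set h := 1 / (2 * ℓ) with hh
  have hh0 : 0 < h := by positivity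
  have h2h : 0 < 2 * h := by positivity
  have e2 : 2 / (2 * h) = 2 * ℓ := by rw [hh]; field_simp
  have hI : ∀ x y, IntervalIntegrable φ volume x y := fun x y => hc.intervalIntegrable x y
  refine ⟨fun s => M φ (2 * h) (s - h), fun s => M_le h2h h1 _, fun s s' => ?_, fun s hs =>
    M_zero h2h fun x hx1 hx2 => h3 x fun hx => hs ⟨by linarith [hx.1], by linarith [hx.2]⟩,
    fun s1 s2 => ?_⟩
  · have := M_lip h2h hI h1 (s - h) (s' - h)
    rw [e2, sub_sub_sub_cancel_right] at this
    exact this
  · -- antiderivatives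
    set Φ : ℝ → ℝ := fun r => ∫ x in (0 : ℝ)..r, φ x with hΦ
    have hΦd : ∀ r, HasDerivAt Φ (φ r) r := fun r =>
      intervalIntegral.integral_hasDerivAt_right (hI 0 r)
        (hc.stronglyMeasurableAtFilter _ _) hc.continuousAt
    have hΦc : Continuous Φ := continuous_iff_continuousAt.2 fun r => (hΦd r).continuousAt
    have hΦI : ∀ x y, IntervalIntegrable Φ volume x y := fun x y => hΦc.intervalIntegrable x y
    have hΦl : ∀ x y, |Φ x - Φ y| ≤ |x - y| := by
      intro x y
      have e : Φ x - Φ y = ∫ t in y..x, φ t := by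
        have := intervalIntegral.integral_add_adjacent_intervals (hI 0 y) (hI y x)
        rw [hΦ]
        linarith
      rw [e]
      have := int_abs_le (F := φ) (a := y) (b := x) (C := 1) fun x _ => h1 x
      rw [one_mul] at this
      exact this
    set Ψ : ℝ → ℝ := fun r => M Φ (2 * h) (r - h) with hΨ
    have hΨd : ∀ r, HasDerivAt Ψ (M φ (2 * h) (r - h)) r := by
      intro r
      -- Ψ r = (2h)⁻¹ (Θ (r + h) - Θ (r - h))
      set Θ : ℝ → ℝ := fun r => ∫ x in (0 : ℝ)..r, Φ x with hΘ
      have hΘd : ∀ r, HasDerivAt Θ (Φ r) r := fun r =>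
        intervalIntegral.integral_hasDerivAt_right (hΦI 0 r)
          (hΦc.stronglyMeasurableAtFilter _ _) hΦc.continuousAt
      have e : Ψ = fun r => (2 * h)⁻¹ * (Θ (r + h) - Θ (r - h)) := by
        funext r
        rw [hΨ]
        unfold M
        beta_reduce
        congr 1
        have h5 : r - h + 2 * h = r + h := by ring
        rw [h5, hΘ]
        have := intervalIntegral.integral_add_adjacent_intervals (hΦI 0 (r - h))
          (hΦI (r - h) (r + h))
        linarith
      have e3 : M φ (2 * h) (r - h) = (2 * h)⁻¹ * (Φ (r + h) - Φ (r - h)) := by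
        unfold M
        congr 1
        have h5 : r - h + 2 * h = r + h := by ring
        rw [h5, hΦ]
        have := intervalIntegral.integral_add_adjacent_intervals (hI 0 (r - h))
          (hI (r - h) (r + h))
        linarith
      rw [e, e3]
      have d1 : HasDerivAt (fun r => Θ (r + h)) (Φ (r + h)) r :=
        (hΘd (r + h)).comp_add_const r h
      have d2 : HasDerivAt (fun r => Θ (r - h)) (Φ (r - h)) r :=
        (hΘd (r - h)).comp_sub_const r h
      exact (d1.sub d2).const_mul _
    have hbd : ∀ r, |Φ r - Ψ r| ≤ 1 / (2 * ℓ) := by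
      intro r
      have e : Φ r - Ψ r = (2 * h)⁻¹ * ∫ x in (r - h)..(r - h + 2 * h), (Φ r - Φ x) := by
        rw [intervalIntegral.integral_sub (intervalIntegrable_const) (hΦI _ _),
          intervalIntegral.integral_const, add_sub_cancel_left, smul_eq_mul, mul_sub,
          ← mul_assoc, inv_mul_cancel₀ h2h.ne', one_mul]
        rfl
      rw [e, abs_mul, abs_of_pos (inv_pos.2 h2h)]
      have h6 : |∫ x in (r - h)..(r - h + 2 * h), (Φ r - Φ x)| ≤ h * |r - h + 2 * h - (r - h)| := by
        refine int_abs_le fun x hx => ?_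
        rw [Set.uIoc_of_le (by linarith)] at hx
        refine (hΦl r x).trans ?_
        rw [abs_le]
        exact ⟨by linarith [hx.1, hx.2], by linarith [hx.1, hx.2]⟩
      rw [add_sub_cancel_left, abs_of_pos h2h] at h6
      calc (2 * h)⁻¹ * |∫ x in (r - h)..(r - h + 2 * h), (Φ r - Φ x)| ≤
            (2 * h)⁻¹ * (h * (2 * h)) := mul_le_mul_of_nonneg_left h6 (inv_pos.2 h2h).le
        _ = h := by field_simp
        _ = _ := hh
    have hψc : Continuous fun r => M φ (2 * h) (r - h) := by
      refine cont_of_lip (C := 2 * ℓ) fun s s' => ?_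
      have := M_lip h2h hI h1 (s - h) (s' - h)
      rw [e2, sub_sub_sub_cancel_right] at this
      exact this
    have hint : ∫ s in s1..s2, (φ s - M φ (2 * h) (s - h)) = (Φ s2 - Ψ s2) - (Φ s1 - Ψ s1) :=
      intervalIntegral.integral_eq_sub_of_hasDerivAt (f := fun r => Φ r - Ψ r)
        (fun r _ => (hΦd r).sub (hΨd r)) ((hc.sub hψc).intervalIntegrable _ _)
    rw [hint]
    refine (abs_sub _ _).trans ?_
    have h7 := hbd s1
    have h8 := hbd s2
    have h9 : 1 / ℓ = 1 / (2 * ℓ) + 1 / (2 * ℓ) := by field_simp; ring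
    linarith

lemma abs_min_sub_le (x y c : ℝ) : |min x c - min y c| ≤ |x - y| := by
  have := abs_min_sub_min_le_max x c y c
  simpa using this

lemma abs_max_sub_le' (x y c : ℝ) : |max x c - max y c| ≤ |x - y| := by
  have := abs_max_sub_max_le_max x c y c
  simpa using this

/-- **SM.** -/
theorem t_SM : S_SM := by
  refine ⟨8, by norm_num, fun B H δ ℓ σ G0 hB hH hHB hδ hδ2 hℓ h1 h2 h3 => ?_⟩
  obtain ⟨g1, g2, g3, g4⟩ := first hH hHB hδ hδ2 h1 h2 h3
  have hℓ0 : 0 < ℓ := by linarith
  have hB0 : 0 < B := by linarith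
  have ha : 0 < δ * H := by positivity
  set G1 : ℝ → ℝ := M G0 (δ * H) with hG1
  set φ : ℝ → ℝ := fun s => G1 (Real.exp s) with hφ
  have hG1c : Continuous G1 := cont_of_lip g2
  have hφc : Continuous φ := hG1c.comp Real.continuous_exp
  have hφ0 : ∀ s, ¬ (Real.log (65 / 100 * B) ≤ s ∧ s ≤ Real.log (32 / 10 * B)) → φ s = 0 := by
    intro s hs
    refine g3 _ fun hs2 => hs ⟨?_, ?_⟩
    · rw [Real.log_le_iff_le_exp (by positivity)]
      exact hs2.1
    · rw [Real.le_log_iff_exp_le (by positivity)]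
      exact hs2.2
  obtain ⟨ψ, p1, p2, p3, p4⟩ := second hℓ0 hφc (fun s => g1 _) hφ0
  have hsmall : 1 / (2 * ℓ) ≤ 1 / 20 := by
    apply one_div_le_one_div_of_le <;> linarith
  -- the support of ψ
  have hlo : Real.log (B / 2) ≤ Real.log (65 / 100 * B) - 1 / (2 * ℓ) := by
    have e1 : Real.log (65 / 100 * B) = Real.log (B / 2) + Real.log (13 / 10) := by
      rw [← Real.log_mul (by positivity) (by norm_num)]
      congr 1
      ring
    have e2 : 1 / 20 ≤ Real.log (13 / 10) := by
      rw [Real.le_log_iff_exp_le (by norm_num)]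
      have := Real.exp_bound' (x := 1 / 20) (n := 1) (by norm_num) (by norm_num) (by norm_num)
      norm_num at this
      linarith
    linarith
  have hhi : Real.log (32 / 10 * B) + 1 / (2 * ℓ) ≤ Real.log (4 * B) := by
    have e1 : Real.log (4 * B) = Real.log (32 / 10 * B) + Real.log (5 / 4) := by
      rw [← Real.log_mul (by positivity) (by norm_num)]
      congr 1
      ring
    have e2 : 1 / 20 ≤ Real.log (5 / 4) := by
      rw [Real.le_log_iff_exp_le (by norm_num)]
      have := Real.exp_bound' (x := 1 / 20) (n := 1) (by norm_num) (by norm_num) (by norm_num)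
      norm_num at this
      linarith
    linarith
  have hψ0 : ∀ s, ¬ (Real.log (B / 2) ≤ s ∧ s ≤ Real.log (4 * B)) → ψ s = 0 := fun s hs =>
    p3 s fun h => hs ⟨by linarith [h.1], by linarith [h.2]⟩
  have hφ1 : ∀ s, ¬ (Real.log (B / 2) ≤ s ∧ s ≤ Real.log (4 * B)) → φ s = 0 := fun s hs =>
    hφ0 s fun h => hs ⟨by have := h.1; have : 0 < 1 / (2 * ℓ) := by positivity
                          linarith, by have := h.2; have : 0 < 1 / (2 * ℓ) := by positivity
                                       linarith⟩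
  -- the Lipschitz bound of φ
  have hφl : ∀ s s', |φ s - φ s'| ≤ 8 * (B / (δ * H)) * |s - s'| := by
    have hcl : ∀ s, φ s = φ (min s (Real.log (4 * B))) := by
      intro s
      rcases le_total s (Real.log (4 * B)) with h | h
      · rw [min_eq_left h]
      · rw [min_eq_right h]
        have k1 : φ (Real.log (4 * B)) = 0 := by
          refine hφ0 _ fun hh => ?_
          have : 0 < 1 / (2 * ℓ) := by positivity
          linarith [hh.2]
        rw [k1]
        refine hφ0 _ fun hh => ?_
        have : 0 < 1 / (2 * ℓ) := by positivity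
        linarith [hh.2]
    intro s s'
    rw [hcl s, hcl s']
    have k1 := g2 (Real.exp (min s (Real.log (4 * B)))) (Real.exp (min s' (Real.log (4 * B))))
    have k2 : |Real.exp (min s (Real.log (4 * B))) - Real.exp (min s' (Real.log (4 * B)))| ≤
        4 * B * |min s (Real.log (4 * B)) - min s' (Real.log (4 * B))| := by
      have k3 : ∀ x y : ℝ, x ≤ Real.log (4 * B) → y ≤ x →
          |Real.exp x - Real.exp y| ≤ 4 * B * |x - y| := by
        intro x y hx hxy
        have k4 : Real.exp x ≤ 4 * B := by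
          rwa [Real.le_log_iff_exp_le (by positivity)] at hx
        rw [abs_of_nonneg (sub_nonneg.2 (Real.exp_le_exp.2 hxy)), abs_of_nonneg (sub_nonneg.2 hxy)]
        have k5 : Real.exp x - Real.exp y = Real.exp x * (1 - Real.exp (y - x)) := by
          rw [mul_sub, mul_one, ← Real.exp_add]
          congr 2
          ring
        have k6 : 1 - Real.exp (y - x) ≤ x - y := by
          have := Real.add_one_le_exp (y - x)
          linarith
        rw [k5]
        exact mul_le_mul k4 k6 (by
          have : Real.exp (y - x) ≤ 1 := Real.exp_le_one_iff.2 (by linarith)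
          linarith) (by positivity)
      rcases le_total (min s (Real.log (4 * B))) (min s' (Real.log (4 * B))) with h | h
      · rw [abs_sub_comm, abs_sub_comm (min s _)]
        exact k3 _ _ (min_le_right _ _) h
      · exact k3 _ _ (min_le_right _ _) h
    have k7 := abs_min_sub_le s s' (Real.log (4 * B))
    calc _ ≤ _ := k1
      _ ≤ 2 / (δ * H) * (4 * B * |s - s'|) := by
          refine mul_le_mul_of_nonneg_left (k2.trans ?_) (by positivity)
          exact mul_le_mul_of_nonneg_left k7 (by positivity)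
      _ = _ := by ring
  refine ⟨fun s => φ s - ψ s, fun v => if 0 < v then ψ (Real.log v) else 0, fun s => ?_,
    fun s s' => ?_, fun s hs => ?_, fun s1 s2 _ => p4 s1 s2, fun v => ?_, fun v v' => ?_,
    fun v hv => ?_, fun v hv hk => ?_⟩
  · refine (abs_sub _ _).trans ?_
    have := g1 (Real.exp s)
    have := p1 s
    linarith
  · have k1 := hφl s s'
    have k2 := p2 s s'
    have e : φ s - ψ s - (φ s' - ψ s') = (φ s - φ s') - (ψ s - ψ s') := by ring
    rw [e]
    refine (abs_sub _ _).trans ?_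
    have k3 : 0 ≤ ℓ * |s - s'| := by positivity
    calc |φ s - φ s'| + |ψ s - ψ s'| ≤ 8 * (B / (δ * H)) * |s - s'| + 2 * ℓ * |s - s'| :=
          add_le_add k1 k2
      _ ≤ _ := by nlinarith
  · beta_reduce
    rw [hφ1 s hs, hψ0 s hs, sub_zero]
  · beta_reduce
    split_ifs
    · exact p1 _
    · simp
  · -- the Lipschitz bound of G
    have hcl : ∀ v : ℝ, (if 0 < v then ψ (Real.log v) else 0) = ψ (Real.log (max v (B / 2))) := by
      intro v
      have k0 : ψ (Real.log (B / 2)) = 0 := by
        have hlo' : Real.log (B / 2) < Real.log (65 / 100 * B) - 1 / (2 * ℓ) := by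
          have e1 : Real.log (65 / 100 * B) = Real.log (B / 2) + Real.log (13 / 10) := by
            rw [← Real.log_mul (by positivity) (by norm_num)]
            congr 1
            ring
          have e2 : 1 / 20 < Real.log (13 / 10) := by
            rw [Real.lt_log_iff_exp_lt (by norm_num)]
            have := Real.exp_bound' (x := 1 / 20) (n := 1) (by norm_num) (by norm_num)
              (by norm_num)
            norm_num at this
            linarith
          linarith
        exact p3 _ fun h => absurd h.1 (not_le.2 hlo')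
      rcases le_or_gt v (B / 2) with h | h
      · rw [max_eq_right h, k0]
        split_ifs with hv
        · rcases eq_or_lt_of_le h with h' | h'
          · rw [h', k0]
          · exact hψ0 _ fun hh => absurd hh.1 (not_le.2 (Real.log_lt_log hv h'))
        · rfl
      · rw [max_eq_left h.le, if_pos (by linarith)]
    beta_reduce
    rw [hcl v, hcl v']
    refine (p2 _ _).trans ?_
    have k1 : ∀ x y : ℝ, B / 2 ≤ x → x ≤ y → |Real.log x - Real.log y| ≤ 2 / B * |x - y| := by
      intro x y hx hxy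
      have hx0 : 0 < x := by linarith
      have hy0 : 0 < y := by linarith
      rw [abs_sub_comm, abs_sub_comm x, abs_of_nonneg (sub_nonneg.2 (Real.log_le_log hx0 hxy)),
        abs_of_nonneg (sub_nonneg.2 hxy), ← Real.log_div hy0.ne' hx0.ne']
      have k2 := Real.log_le_sub_one_of_pos (div_pos hy0 hx0)
      have k3 : y / x - 1 = (y - x) / x := by field_simp
      rw [k3] at k2
      refine k2.trans ?_
      rw [div_mul_eq_mul_div, div_le_div_iff₀ hx0 hB0]
      nlinarith
    have k2 : |Real.log (max v (B / 2)) - Real.log (max v' (B / 2))| ≤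
        2 / B * |max v (B / 2) - max v' (B / 2)| := by
      rcases le_total (max v (B / 2)) (max v' (B / 2)) with h | h
      · exact k1 _ _ (le_max_right _ _) h
      · rw [abs_sub_comm, abs_sub_comm (max v _)]
        exact k1 _ _ (le_max_right _ _) h
    have k3 := abs_max_sub_le' v v' (B / 2)
    calc 2 * ℓ * |Real.log (max v (B / 2)) - Real.log (max v' (B / 2))| ≤
          2 * ℓ * (2 / B * |v - v'|) := by
          refine mul_le_mul_of_nonneg_left (k2.trans ?_) (by positivity)
          exact mul_le_mul_of_nonneg_left k3 (by positivity)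
      _ = 4 * (ℓ * |v - v'| / B) := by ring
      _ ≤ 8 * (ℓ * |v - v'| / B) := by
          have : 0 ≤ ℓ * |v - v'| / B := by positivity
          linarith
      _ = _ := by ring
  · beta_reduce
    rw [if_pos hv]
    have e : ψ (Real.log v) + (φ (Real.log v) - ψ (Real.log v)) = G1 v := by
      rw [hφ]
      beta_reduce
      rw [Real.exp_log hv]
      ring
    rw [e]
    exact g1 v
  · beta_reduce
    rw [if_pos hv]
    have e : ψ (Real.log v) + (φ (Real.log v) - ψ (Real.log v)) = G1 v := by
      rw [hφ]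
      beta_reduce
      rw [Real.exp_log hv]
      ring
    rw [e]
    exact g4 v hk

end

end Pool.Agent.N838.QL
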